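import Pool.Agent.Y107.Sl2Idem
import Pool.Agent.Y107.JM

/-!
# Two `sl(2)`-triples with the same nilpotent element in an associative algebra
-/

open Finset

set_option autoImplicit false

namespace Pool.Agent.H92EQ

open Pool.Agent.H914 Pool.Agent.Y107

variable {A : Type*} [Ring A] [Algebra ℚ A]

/-- The part of weight `c` of `x`. -/
noncomputable def part (h : A) (N : ℕ) (c : ℤ) (x : A) : A :=
  ∑ j ∈ wts N, wp h N (j + c) * x * wp h N j

lemma wp_out {h : A} {N : ℕ} {j : ℤ} (hj : j ∉ wts N) : wp h N j = 0 := by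
  unfold wp
  rw [if_neg hj]

section one

variable {h e f : A} (t : Sl2 h e f) {N : ℕ} (hE : e ^ N = 0) (hF : f ^ N = 0)

include t hE hF

/-- All powers of `e` are regular. -/
theorem regular_of_sl2 (c : ℕ) : ∃ y : A, e ^ c * y * e ^ c = e ^ c := by
  have key : ∀ j : ℤ, ∃ y : A,
      e ^ c * (wp h N j * y * wp h N (j + 2 * c)) * e ^ c = e ^ c * wp h N j := by
    intro j
    have h0 : wp h N (j + 2 * c) * e ^ c = e ^ c * wp h N j := (e_pow_wp t hE hF c j).symm
    rcases le_total (j + c) 0 with hj | hj
    · obtain ⟨r, hr⟩ : ∃ r : ℕ, j = -(r : ℤ) := ⟨(-j).toNat, by omega⟩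
      obtain ⟨g, hg1, hg2, hg3⟩ := exists_lefschetz_inverse t hE hF r
      subst hr
      have hcr : c ≤ r := by omega
      refine ⟨g * e ^ (r - c), ?_⟩
      calc e ^ c * (wp h N (-(r : ℤ)) * (g * e ^ (r - c)) * wp h N (-(r : ℤ) + 2 * c)) * e ^ c
          = e ^ c * (wp h N (-(r : ℤ)) *
              (g * (e ^ (r - c) * (wp h N (-(r : ℤ) + 2 * c) * e ^ c)))) := by
            simp only [mul_assoc]
        _ = e ^ c * (wp h N (-(r : ℤ)) * (g * (e ^ (r - c) * e ^ c) * wp h N (-(r : ℤ)))) := by
            rw [h0]; simp only [mul_assoc]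
        _ = e ^ c * (wp h N (-(r : ℤ)) * (g * e ^ r * wp h N (-(r : ℤ)))) := by
            rw [← pow_add, Nat.sub_add_cancel hcr]
        _ = e ^ c * wp h N (-(r : ℤ)) := by rw [hg1, wp_mul t hE hF, if_pos rfl]
    · obtain ⟨r, hr⟩ : ∃ r : ℕ, j + 2 * c = (r : ℤ) := ⟨(j + 2 * c).toNat, by omega⟩
      obtain ⟨g, hg1, hg2, hg3⟩ := exists_lefschetz_inverse t hE hF r
      have hcr : c ≤ r := by omega
      refine ⟨e ^ (r - c) * g, ?_⟩
      rw [hr] at h0 ⊢
      calc e ^ c * (wp h N j * (e ^ (r - c) * g) * wp h N (r : ℤ)) * e ^ c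
          = (e ^ c * wp h N j) * (e ^ (r - c) * g) * (wp h N (r : ℤ) * e ^ c) := by
            simp only [mul_assoc]
        _ = (wp h N (r : ℤ) * e ^ c) * (e ^ (r - c) * g) * (wp h N (r : ℤ) * e ^ c) := by rw [h0]
        _ = wp h N (r : ℤ) * ((e ^ c * e ^ (r - c)) * g) * (wp h N (r : ℤ) * e ^ c) := by
            simp only [mul_assoc]
        _ = (wp h N (r : ℤ) * wp h N (r : ℤ)) * (wp h N (r : ℤ) * e ^ c) := by
            rw [← pow_add, Nat.add_sub_cancel' hcr, hg2]
        _ = e ^ c * wp h N j := by
            rw [wp_mul t hE hF, if_pos rfl, ← mul_assoc, wp_mul t hE hF, if_pos rfl, h0]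
  choose y hy using key
  refine ⟨∑ j ∈ wts N, wp h N j * y j * wp h N (j + 2 * c), ?_⟩
  rw [mul_sum, sum_mul, sum_congr rfl fun j _ => hy j, ← mul_sum, wp_sum t hE hF, mul_one]

lemma wp_part (c i j : ℤ) (x : A) : wp h N i * part h N c x * wp h N j =
    if i = j + c then wp h N i * x * wp h N j else 0 := by
  unfold part
  rw [mul_sum, sum_mul]
  have e1 : ∀ l : ℤ, wp h N i * (wp h N (l + c) * x * wp h N l) * wp h N j =
      (wp h N i * wp h N (l + c)) * x * (wp h N l * wp h N j) := fun l => by
    simp only [mul_assoc]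
  by_cases hj : j ∈ wts N
  · rw [sum_eq_single j]
    · rw [e1, wp_mul t hE hF, wp_mul t hE hF, if_pos rfl]
      split_ifs with h1
      · rfl
      · rw [zero_mul, zero_mul]
    · intro l _ hl
      rw [e1, wp_mul t hE hF l j, if_neg hl, mul_zero]
    · intro h1
      exact absurd hj h1
  · rw [sum_eq_zero]
    · rw [wp_out hj, mul_zero]
      split_ifs <;> rfl
    · intro l _
      rw [wp_out hj, mul_zero]

lemma ext_wp {a b : A} (hab : ∀ i j : ℤ, wp h N i * a * wp h N j = wp h N i * b * wp h N j) :
    a = b := by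
  have key : ∀ x : A, ∑ i ∈ wts N, ∑ j ∈ wts N, wp h N i * x * wp h N j = x := by
    intro x
    have e1 : ∀ i ∈ wts N, ∑ j ∈ wts N, wp h N i * x * wp h N j = wp h N i * x := by
      intro i _
      rw [← mul_sum, wp_sum t hE hF, mul_one]
    rw [sum_congr rfl e1, ← sum_mul, wp_sum t hE hF, one_mul]
  rw [← key a, ← key b]
  exact sum_congr rfl fun i _ => sum_congr rfl fun j _ => hab i j

lemma wp_brk (i j : ℤ) (y : A) : wp h N i * (e * y - y * e) * wp h N j =
    e * (wp h N (i - 2) * y * wp h N j) - (wp h N i * y * wp h N (j + 2)) * e := by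
  have a1 : wp h N i * e = e * wp h N (i - 2) := by
    rw [e_wp t hE hF (i - 2), show i - 2 + 2 = i by ring]
  have a2 : e * wp h N j = wp h N (j + 2) * e := e_wp t hE hF j
  calc wp h N i * (e * y - y * e) * wp h N j
      = (wp h N i * e) * y * wp h N j - wp h N i * y * (e * wp h N j) := by noncomm_ring
    _ = _ := by rw [a1, a2]; simp only [mul_assoc]

lemma part_brk (c : ℤ) (y : A) : part h N c (e * y - y * e) =
    e * part h N (c - 2) y - part h N (c - 2) y * e := by
  apply ext_wp t hE hF
  intro i j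
  rw [wp_part t hE hF, wp_brk t hE hF, wp_brk t hE hF, wp_part t hE hF, wp_part t hE hF]
  by_cases hij : i = j + c
  · rw [if_pos hij, if_pos (by omega), if_pos (by omega)]
  · rw [if_neg hij, if_neg (by omega), if_neg (by omega)]
    simp

omit hE hF in
lemma ad_sl2 : Sl2 (adQ h) (adQ e) (adQ f) where
  ef := by
    ext x
    simp only [LinearMap.sub_apply, Module.End.mul_apply, adQ_apply]
    rw [← t.ef]
    noncomm_ring
  he := by
    ext x
    have h2 : (2 * adQ e) x = 2 * (e * x - x * e) := by
      rw [two_mul, LinearMap.add_apply, adQ_apply, two_mul]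
    rw [h2]
    simp only [LinearMap.sub_apply, Module.End.mul_apply, adQ_apply]
    calc h * (e * x - x * e) - (e * x - x * e) * h - (e * (h * x - x * h) - (h * x - x * h) * e)
        = (h * e - e * h) * x - x * (h * e - e * h) := by noncomm_ring
      _ = 2 * (e * x - x * e) := by rw [t.he]; noncomm_ring
  hf := by
    ext x
    have h2 : (-(2 * adQ f)) x = -(2 * (f * x - x * f)) := by
      rw [LinearMap.neg_apply, two_mul, LinearMap.add_apply, adQ_apply, two_mul]
    rw [h2]
    simp only [LinearMap.sub_apply, Module.End.mul_apply, adQ_apply]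
    calc h * (f * x - x * f) - (f * x - x * f) * h - (f * (h * x - x * h) - (h * x - x * h) * f)
        = (h * f - f * h) * x - x * (h * f - f * h) := by noncomm_ring
      _ = -(2 * (f * x - x * f)) := by rw [t.hf]; noncomm_ring

lemma part_wt (c : ℤ) (x : A) : part h N c x ∈ wt (adQ h) (c : ℚ) := by
  rw [mem_wt, adQ_apply]
  unfold part
  rw [mul_sum, sum_mul, ← sum_sub_distrib, smul_sum]
  refine sum_congr rfl fun j _ => ?_
  have e1 : h * (wp h N (j + c) * x * wp h N j) - wp h N (j + c) * x * wp h N j * h =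
      (h * wp h N (j + c)) * x * wp h N j - wp h N (j + c) * x * (h * wp h N j) := by
    rw [← h_wp_comm j]
    simp only [mul_assoc]
  rw [e1, h_wp t hE hF, h_wp t hE hF, smul_mul_assoc, smul_mul_assoc, mul_smul_comm, ← sub_smul]
  congr 1
  push_cast
  ring

/-- A commutator with `e` which commutes with `e` strictly raises the weights. -/
theorem raising {z y : A} (hz : e * z = z * e) (hy : z = e * y - y * e) {i j : ℤ}
    (hij : i ≤ j) : wp h N i * z * wp h N j = 0 := by
  have tad := ad_sl2 t
  have hEad : (adQ e) ^ (N + N) = 0 := adQ_pow_eq_zero hE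
  have hFad : (adQ f) ^ (N + N) = 0 := adQ_pow_eq_zero hF
  have hcomm : ∀ c, e * part h N c z - part h N c z * e = 0 := by
    intro c
    have h1 := part_brk t hE hF (c + 2) z
    rw [hz, sub_self, show c + 2 - 2 = c by ring] at h1
    rw [← h1]
    unfold part
    apply sum_eq_zero
    intro j _
    rw [mul_zero, zero_mul]
  have hzero : ∀ c ≤ 0, part h N c z = 0 := by
    intro c hc
    rcases hc.lt_or_eq with hc | rfl
    · obtain ⟨r, hr⟩ : ∃ r : ℕ, c = -((r + 1 : ℕ) : ℤ) := ⟨(-c - 1).toNat, by omega⟩
      have h1 : part h N c z ∈ wt (adQ h) (-((r + 1 : ℕ) : ℚ)) := by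
        have := part_wt t hE hF c z
        rw [hr] at this ⊢
        rwa [Int.cast_neg, Int.cast_natCast] at this
      refine e_pow_inj tad hEad hFad h1 ?_
      rw [pow_succ, Module.End.mul_apply, adQ_apply, hcomm, map_zero]
    · have h1 : part h N (-2) y ∈ wt (adQ h) (-((2 : ℕ) : ℚ)) := by
        have := part_wt t hE hF (-2) y
        push_cast at this ⊢
        exact this
      have h2 : part h N 0 z = adQ e (part h N (-2) y) := by
        rw [hy, part_brk t hE hF, adQ_apply, zero_sub]
      have h3 : part h N (-2) y = 0 := by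
        refine e_pow_inj tad hEad hFad h1 ?_
        rw [pow_two, Module.End.mul_apply, ← h2, adQ_apply, hcomm]
      rw [h2, h3, map_zero]
  have h4 := wp_part t hE hF (i - j) i j z
  rw [if_pos (by ring), hzero _ (by omega), mul_zero, zero_mul] at h4
  exact h4.symm

end one

section two

variable {h e f : A} (t : Sl2 h e f) {N : ℕ} (hE : e ^ N = 0) (hF : f ^ N = 0)
  {h' f' : A} (t' : Sl2 h' e f') (hF' : f' ^ N = 0)

include t hE hF t' hF'

lemma raising_sub {i j : ℤ} (hij : i ≤ j) : wp h N i * (h' - h) * wp h N j = 0 := by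
  refine raising t hE hF (y := f' - f) ?_ ?_ hij
  · have h1 : h' * e - e * h' = h * e - e * h := by rw [t.he, t'.he]
    have h2 : e * (h' - h) = (h' - h) * e - ((h' * e - e * h') - (h * e - e * h)) := by
      noncomm_ring
    rw [h2, h1, sub_self, sub_zero]
  · rw [← t.ef, ← t'.ef]
    noncomm_ring

lemma wp_wp_lt {i j : ℤ} (hij : i < j) : wp h N i * wp h' N j = 0 := by
  have key : ∀ n : ℕ, ∀ i : ℤ, i = -(N : ℤ) + n → ∀ j : ℤ, i < j → wp h N i * wp h' N j = 0 := by
    intro n
    induction n using Nat.strong_induction_on with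
    | _ n ih =>
      intro i hi j hij
      have h1 : wp h N i * (h' - h) * wp h' N j = 0 := by
        have e1 : wp h N i * (h' - h) * wp h' N j =
            ∑ l ∈ wts N, (wp h N i * (h' - h) * wp h N l) * wp h' N j := by
          rw [← sum_mul, ← mul_sum, wp_sum t hE hF, mul_one]
        rw [e1]
        apply sum_eq_zero
        intro l hl
        rcases le_or_gt i l with h2 | h2
        · rw [raising_sub t hE hF t' hF' h2, zero_mul]
        · have h3 : wp h N l * wp h' N j = 0 := by
            unfold wts at hl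
            rw [Finset.mem_Ioo] at hl
            exact ih (l + N).toNat (by omega) l (by omega) j (by omega)
          rw [mul_assoc _ (wp h N l), h3, mul_zero]
      have h2 : wp h N i * (h' - h) * wp h' N j = ((j : ℚ) - i) • (wp h N i * wp h' N j) := by
        rw [mul_sub, sub_mul, mul_assoc, h_wp t' hE hF', h_wp_comm, h_wp t hE hF, mul_smul_comm,
          smul_mul_assoc, ← sub_smul]
      rw [h1] at h2
      rcases smul_eq_zero.1 h2.symm with h3 | h3
      · exfalso
        have h4 : (j : ℚ) = i := by linarith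
        have h5 : j = i := by exact_mod_cast h4
        omega
      · exact h3
  by_cases hi : i ∈ wts N
  · unfold wts at hi
    rw [Finset.mem_Ioo] at hi
    exact key (i + N).toNat i (by omega) j hij
  · rw [wp_out hi, zero_mul]

lemma wp_wp_gt {i j : ℤ} (hij : j < i) : wp h' N j * wp h N i = 0 := by
  have key : ∀ n : ℕ, ∀ i : ℤ, i = (N : ℤ) - n → ∀ j : ℤ, j < i → wp h' N j * wp h N i = 0 := by
    intro n
    induction n using Nat.strong_induction_on with
    | _ n ih =>
      intro i hi j hij
      have h1 : wp h' N j * (h' - h) * wp h N i = 0 := by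
        have e1 : wp h' N j * (h' - h) * wp h N i =
            ∑ l ∈ wts N, wp h' N j * (wp h N l * (h' - h) * wp h N i) := by
          rw [← mul_sum, ← sum_mul, ← sum_mul, wp_sum t hE hF, one_mul, mul_assoc]
        rw [e1]
        apply sum_eq_zero
        intro l hl
        rcases le_or_gt l i with h2 | h2
        · rw [raising_sub t hE hF t' hF' h2, mul_zero]
        · have h3 : wp h' N j * wp h N l = 0 := by
            unfold wts at hl
            rw [Finset.mem_Ioo] at hl
            exact ih ((N : ℤ) - l).toNat (by omega) l (by omega) j (by omega)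
          rw [← mul_assoc, ← mul_assoc, h3, zero_mul, zero_mul]
      have h2 : wp h' N j * (h' - h) * wp h N i = ((j : ℚ) - i) • (wp h' N j * wp h N i) := by
        rw [mul_sub, sub_mul, h_wp_comm, h_wp t' hE hF', mul_assoc (wp h' N j), h_wp t hE hF,
          mul_smul_comm, smul_mul_assoc, ← sub_smul]
      rw [h1] at h2
      rcases smul_eq_zero.1 h2.symm with h3 | h3
      · exfalso
        have h4 : (j : ℚ) = i := by linarith
        have h5 : j = i := by exact_mod_cast h4
        omega
      · exact h3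
  by_cases hi : i ∈ wts N
  · unfold wts at hi
    rw [Finset.mem_Ioo] at hi
    exact key ((N : ℤ) - i).toNat i (by omega) j hij
  · rw [wp_out hi, mul_zero]

theorem wp_wp_wp (i : ℤ) : wp h N i * wp h' N i * wp h N i = wp h N i := by
  by_cases hi : i ∈ wts N
  · have h1 : ∑ j ∈ wts N, wp h N i * wp h' N j * wp h N i = wp h N i := by
      rw [← sum_mul, ← mul_sum, wp_sum t' hE hF', mul_one, wp_mul t hE hF, if_pos rfl]
    rw [sum_eq_single i] at h1
    · exact h1
    · intro j _ hj
      rcases lt_or_gt_of_ne hj with h2 | h2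
      · rw [mul_assoc, wp_wp_gt t hE hF t' hF' h2, mul_zero]
      · rw [wp_wp_lt t hE hF t' hF' h2, zero_mul]
    · intro h2
      exact absurd hi h2
  · rw [wp_out hi, mul_zero]

theorem wp_wp_wp' (i : ℤ) : wp h' N i * wp h N i * wp h' N i = wp h' N i := by
  by_cases hi : i ∈ wts N
  · have h1 : ∑ j ∈ wts N, wp h' N i * wp h N j * wp h' N i = wp h' N i := by
      rw [← sum_mul, ← mul_sum, wp_sum t hE hF, mul_one, wp_mul t' hE hF', if_pos rfl]
    rw [sum_eq_single i] at h1
    · exact h1
    · intro j _ hj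
      rcases lt_or_gt_of_ne hj with h2 | h2
      · rw [mul_assoc, wp_wp_lt t hE hF t' hF' h2, mul_zero]
      · rw [wp_wp_gt t hE hF t' hF' h2, zero_mul]
    · intro h2
      exact absurd hi h2
  · rw [wp_out hi, mul_zero]

end two

end Pool.Agent.H92EQ
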