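import Pool.Agent.H92SD.Prod
import Pool.Agent.H92EQ.Ring
import Pool.Agent.Y107.SDMul

/-!
# The linear equation and the divisibility of the diagonal: descent
-/

open CategoryTheory AlgebraicGeometry

set_option autoImplicit false

universe u v w

namespace Pool.Agent.H92EQ

open Pool.Agent.H914 Pool.Agent.H914.VarClass Pool.Agent.H914.VarClass.Obj Pool.Agent.W492.BB
  Pool.Agent.W550.Corr Pool.Agent.TH133 Pool.Agent.Y107 Pool.Agent.H92SD

set_option linter.unusedSectionVars false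

variable {k : Type u} [Field k] {𝒱 : VarClass k}

variable {C : TheoryData.{u, v, 0} 𝒱 ℚ} [hC : IsChowProj C] {X Y Z : 𝒱.Obj}

include hC

/-- An `sl(2)`-triple from a solution of the linear equation. -/
theorem exists_sl2_of_inSquare {L : Cor C X} (hL : L ∈ crg C X 1)
    (h : InSquare C (X := X) L) : ∃ h ∈ crg C X 0, ∃ f ∈ crg C X (-1), Sl2 h L f := by
  rw [inSquare_iff] at h
  obtain ⟨z₀, hz₀, hz₀'⟩ := h
  set z : Cor C X := -(2 * z₀) with hz
  have hzm : z ∈ crg C X (-1) := by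
    refine Submodule.neg_mem _ ?_
    rw [two_mul]
    exact Submodule.add_mem _ hz₀ hz₀
  set h : Cor C X := L * z - z * L with hh
  have he : h * L - L * h = 2 * L := by
    calc h * L - L * h = 2 * (L * (L * z₀ - z₀ * L) - (L * z₀ - z₀ * L) * L) := by
          rw [hh, hz]; noncomm_ring
      _ = 2 * L := by rw [hz₀']
  have hh0 : h ∈ crg C X 0 := by
    refine Submodule.sub_mem _ ?_ ?_
    · have := crg_mul hL hzm
      rwa [show (1 : ℤ) + -1 = 0 by norm_num] at this
    · have := crg_mul hzm hL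
      rwa [show (-1 : ℤ) + 1 = 0 by norm_num] at this
  have hE : L ^ (X.dim + 1) = 0 := crg_top (crg_pow hL (X.dim + 1)) (by push_cast; omega)
  obtain ⟨f, hf, t⟩ := morozov hE rfl he (crg C X (-1)) hzm (fun x hx => by
    refine Submodule.sub_mem _ ?_ ?_
    · have := crg_mul hh0 hx
      rwa [zero_add] at this
    · have := crg_mul hx hh0
      rwa [add_zero] at this)
  exact ⟨h, hh0, f, hf, t⟩

/-- The linear equation implies that all powers are regular. -/
theorem powersRegular_of_inSquare {L : Cor C X} (hL : L ∈ crg C X 1)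
    (h : InSquare C (X := X) L) : PowersRegular C (X := X) L := by
  obtain ⟨h, _, f, hf, t⟩ := exists_sl2_of_inSquare hL h
  have hE : L ^ (X.dim + 1) = 0 := crg_top (crg_pow hL (X.dim + 1)) (by push_cast; omega)
  have hF : f ^ (X.dim + 1) = 0 := crg_bot (crg_pow hf (X.dim + 1)) (by push_cast; omega)
  rw [powersRegular_iff]
  intro c
  obtain ⟨y, hy⟩ := regular_of_sl2 t hE hF c
  have hLc : L ^ c ∈ crg C X c := by
    have := crg_pow hL c
    rwa [mul_one] at this
  let φ : Cor C X →ₗ[ℚ] Cor C X := LinearMap.mulLeft ℚ (L ^ c) * LinearMap.mulRight ℚ (L ^ c)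
  have hφ1 : ∀ x, φ x = L ^ c * x * L ^ c := by
    intro x
    change L ^ c * (x * L ^ c) = _
    rw [mul_assoc]
  have hφ : ∀ i, ∀ x ∈ crg C X i, φ x ∈ crg C X (i + 2 * c) := by
    intro i x hx
    rw [hφ1]
    have := crg_mul (crg_mul hLc hx) hLc
    rwa [show (c : ℤ) + i + c = i + 2 * c by ring] at this
  have k1 := cmpc_map φ (2 * c) hφ (-(c : ℤ)) y
  rw [hφ1 y, hy, show -(c : ℤ) + 2 * c = c by ring, cmpc_of_mem hLc, hφ1] at k1
  exact ⟨cmpc C X (-(c : ℤ)) y, cmpc_mem _ _, k1.symm⟩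

/-- The linear equation is equivalent to the divisibility of the cycles `Δ_* (D^c)`. -/
theorem divisorEquation_iff {D : C.A X} (hD : C.Deg 1 D) :
    DivisorEquation C D ↔ DiagonalMultiples C D := by
  have h1 : DivisorEquation C D ↔ InSquare C (C.mulCorr D) := (inSquare_mulCorr D).symm
  have h2 : DiagonalMultiples C D ↔ PowersRegular C (C.mulCorr D) := (powersRegular_mulCorr D).symm
  rw [h1, h2]
  exact ⟨fun h => powersRegular_of_inSquare (mulCorr_mem hD) h,
    fun h => inSquare_of_powersRegular (mulCorr_mem hD) h⟩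

section desc

/-- The cofactor of `D^c` in `(D + η)^(c+m)`. -/
noncomputable def cof (C : TheoryData.{u, v, 0} 𝒱 ℚ) {Y : 𝒱.Obj} (a b : C.A Y) (c m : ℕ) : C.A Y :=
  ∑ i ∈ Finset.range (m + 1), b ^ i * a ^ (m - i) * ((c + m).choose i : C.A Y)

lemma pow_eq_cof (a b : C.A Y) (c m : ℕ) (hb : b ^ (m + 1) = 0) :
    (a + b) ^ (c + m) = a ^ c * cof C a b c m := by
  have hab : Commute b a := ch_comm C b a
  rw [add_comm a b, hab.add_pow, show c + m + 1 = (m + 1) + c by ring,
    Finset.sum_range_add _ (m + 1) c, Finset.sum_eq_zero (s := Finset.range c), add_zero, cof,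
    Finset.mul_sum]
  · apply Finset.sum_congr rfl
    intro i hi
    rw [Finset.mem_range] at hi
    rw [show c + m - i = c + (m - i) by omega, pow_add, ← mul_assoc, ← mul_assoc, ← mul_assoc,
      ch_comm C (b ^ i) (a ^ c)]
  · intro i _
    rw [pow_add b (m + 1) i, hb, zero_mul, zero_mul, zero_mul]

lemma pow_deg {a : C.A Y} {i : ℤ} (ha : C.Deg i a) (n : ℕ) : C.Deg (n * i) (a ^ n) := by
  induction n with
  | zero =>
    rw [pow_zero, Nat.cast_zero, zero_mul]
    exact C.one_mem Y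
  | succ n ih =>
    rw [pow_succ]
    have := C.mul_mem ih ha
    rwa [show (n : ℤ) * i + i = ((n + 1 : ℕ) : ℤ) * i by push_cast; ring] at this

lemma pow_deg_one {a : C.A Y} (ha : C.Deg 1 a) (n : ℕ) : C.Deg n (a ^ n) := by
  have := pow_deg ha n
  rwa [mul_one] at this

lemma natCast_deg (Y : 𝒱.Obj) (n : ℕ) : C.Deg 0 (n : C.A Y) := by
  have h1 : (n : C.A Y) = (n : ℚ) • (1 : C.A Y) := by
    rw [Algebra.smul_def, mul_one, map_natCast]
  rw [h1]
  exact Submodule.smul_mem _ _ (C.one_mem Y)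

lemma cof_deg {a b : C.A Y} (ha : C.Deg 1 a) (hb : C.Deg 1 b) (c m : ℕ) :
    C.Deg m (cof C a b c m) := by
  refine Submodule.sum_mem _ fun i hi => ?_
  rw [Finset.mem_range] at hi
  have := C.mul_mem (C.mul_mem (pow_deg_one hb i) (pow_deg_one ha (m - i)))
    (natCast_deg Y ((c + m).choose i))
  rwa [show (i : ℤ) + ((m - i : ℕ) : ℤ) + 0 = m by omega] at this

/-- The push-forward of `A (g^* D + η)^(c+m)` is a non-zero multiple of `D^c`. -/
lemma push_cof (g : Y ⟶ X) {D : C.A X} {A η : C.A Y} {m : ℕ} {N : ℚ}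
    (hA : C.Deg ((Y.dim : ℤ) - X.dim - m) A) (hη : C.Deg 1 η)
    (hN : C.push g (A * η ^ m) = N • 1) (c : ℕ) :
    C.push g (A * cof C (C.pull g D) η c m) = (N * (c + m).choose m) • 1 := by
  rw [cof, Finset.mul_sum, map_sum, Finset.sum_range_succ, Finset.sum_eq_zero, zero_add]
  · rw [Nat.sub_self, pow_zero, mul_one, ← mul_assoc]
    have e1 : A * η ^ m * ((c + m).choose m : C.A Y) = ((c + m).choose m : ℚ) • (A * η ^ m) := by
      rw [Algebra.smul_def, map_natCast, ch_comm C]
    rw [e1, map_smul, hN, smul_smul, mul_comm]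
  · intro i hi
    rw [Finset.mem_range] at hi
    have e1 : A * (η ^ i * C.pull g D ^ (m - i) * ((c + m).choose i : C.A Y)) =
        C.pull g (D ^ (m - i) * ((c + m).choose i : C.A X)) * (A * η ^ i) := by
      rw [map_mul, map_pow, map_natCast]
      generalize C.pull g D ^ (m - i) = x
      generalize ((c + m).choose i : C.A Y) = y
      rw [← mul_assoc, ← mul_assoc, ch_comm C (A * η ^ i * x) y, ch_comm C (A * η ^ i) x,
        ← mul_assoc, ← mul_assoc, ← mul_assoc, ch_comm C y x]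
    rw [e1, C.proj_left]
    have h1 : C.push g (A * η ^ i) ∈ C.gr X ((i : ℤ) - m) := by
      have := C.push_mem g (C.mul_mem hA (pow_deg_one hη i))
      rwa [show (Y.dim : ℤ) - X.dim - m + i + 1 * ((X.dim : ℤ) - (Y.dim : ℤ)) = i - m by ring]
        at this
    rw [C.gr_neg X _ (by omega)] at h1
    rw [(Submodule.mem_bot _).1 h1, mul_zero]

/-- The push-forward of `(A × 1) Δ_* x` is `Δ_* (g_* (A x))`. -/
lemma push_mulCorr (g : Y ⟶ X) (A x : C.A Y) :
    C.push (prodMap g g) (C.pull (fst Y Y) A * C.mulCorr x) = C.mulCorr (C.push g (A * x)) := by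
  have e1 : C.pull (fst Y Y) A * C.mulCorr x = C.mulCorr (A * x) := by
    rw [TheoryData.mulCorr, TheoryData.mulCorr, ← C.proj_left, ← C.pull_comp, lift_fst, C.pull_id]
  have e2 : Obj.lift (𝟙 Y) (𝟙 Y) ≫ prodMap g g = g ≫ Obj.lift (𝟙 X) (𝟙 X) := by
    apply prod_ext <;> simp
  rw [e1, TheoryData.mulCorr, ← C.push_comp, e2, C.push_comp]
  rfl

lemma pull_ext (g : Y ⟶ X) (a b : C.A X) :
    C.pull (prodMap g g) (C.ext a b) = C.ext (C.pull g a) (C.pull g b) := by
  rw [TheoryData.ext, TheoryData.ext, map_mul, ← C.pull_comp, ← C.pull_comp, prodMap_fst,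
    prodMap_snd, C.pull_comp, C.pull_comp]

/-- **Descent of the divisibility of the diagonal.** -/
theorem diagonalMultiples_descend (g : Y ⟶ X) {D : C.A X} {A η : C.A Y} {m : ℕ} {N : ℚ}
    (hD : C.Deg 1 D) (hA : C.Deg ((Y.dim : ℤ) - X.dim - m) A) (hη : C.Deg 1 η)
    (hη0 : η ^ (m + 1) = 0) (hN0 : N ≠ 0) (hN : C.push g (A * η ^ m) = N • 1)
    (h : DiagonalMultiples C (C.pull g D + η)) : DiagonalMultiples C D := by
  intro c
  obtain ⟨y, hy, h1⟩ := h (c + m)
  set a := C.pull g D with ha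
  set B := cof C a η c m with hB
  have haD : C.Deg 1 a := C.pull_mem g hD
  have hpow : (a + η) ^ (c + m) = a ^ c * B := pow_eq_cof a η c m hη0
  have hBm : C.Deg m B := cof_deg haD hη c m
  set q : ℚ := N * (c + m).choose m with hq
  have hq0 : q ≠ 0 := by
    refine mul_ne_zero hN0 ?_
    exact_mod_cast (Nat.choose_pos (Nat.le_add_left m c)).ne'
  set y' : C.A (X.prod X) := C.push (prodMap g g)
    (C.pull (fst Y Y) A * (C.ext B B * y)) with hy'
  have hext : C.ext ((a + η) ^ (c + m)) ((a + η) ^ (c + m)) =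
      C.pull (prodMap g g) (C.ext (D ^ c) (D ^ c)) * C.ext B B := by
    rw [pull_ext, hpow, map_pow, ← ha, TheoryData.ext, TheoryData.ext, TheoryData.ext, map_mul,
      map_mul]
    rw [mul_assoc, ← mul_assoc (C.pull (fst Y Y) B), ch_comm C (C.pull (fst Y Y) B)]
    simp only [mul_assoc]
  have h2 : C.push (prodMap g g) (C.pull (fst Y Y) A *
      (C.ext ((a + η) ^ (c + m)) ((a + η) ^ (c + m)) * y)) =
      C.push (prodMap g g) (C.pull (fst Y Y) A * C.mulCorr ((a + η) ^ (c + m))) := by rw [h1]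
  rw [push_mulCorr, hext, hpow] at h2
  have e1 : C.pull (fst Y Y) A * (C.pull (prodMap g g) (C.ext (D ^ c) (D ^ c)) * C.ext B B * y) =
      C.pull (prodMap g g) (C.ext (D ^ c) (D ^ c)) *
        (C.pull (fst Y Y) A * (C.ext B B * y)) := by
    rw [← mul_assoc, ← mul_assoc, ch_comm C (C.pull (fst Y Y) A)]
    simp only [mul_assoc]
  have e2 : A * (a ^ c * B) = C.pull g (D ^ c) * (A * B) := by
    rw [map_pow, ← ha, ← mul_assoc, ch_comm C A, mul_assoc]
  rw [e1, C.proj_left, e2, C.proj_left, push_cof g hA hη hN c, ← hq, mul_smul_comm, mul_one] at h2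
  have e3 : C.mulCorr (q • D ^ c) = q • C.mulCorr (D ^ c) := map_smul (C.push _) q _
  rw [e3] at h2
  refine ⟨q⁻¹ • y', Submodule.smul_mem _ _ ?_, ?_⟩
  · have hBB : C.Deg ((m : ℤ) + m) (C.ext B B) :=
      C.mul_mem (C.pull_mem _ hBm) (C.pull_mem _ hBm)
    have h3 := C.push_mem (prodMap g g) (C.mul_mem (C.pull_mem (fst Y Y) hA) (C.mul_mem hBB hy))
    rw [show (Y.dim : ℤ) - X.dim - m + ((m : ℤ) + m + ((Y.dim : ℤ) - ((c + m : ℕ) : ℤ))) +
      1 * (((X.prod X).dim : ℤ) - ((Y.prod Y).dim : ℤ)) = X.dim - c by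
        rw [dim_prod, dim_prod]; push_cast; ring] at h3
    exact h3
  · rw [mul_smul_comm, h2, smul_smul, inv_mul_cancel₀ hq0, one_smul]

end desc

lemma mc_boxSum (D : C.A X) (E : C.A Z) :
    mc (boxSum C D E) = tn (mc D) 1 + tn 1 (mc E) := by
  have h1 : mc (boxSum C D E) = (tn (X := X) (Z := Z) (C.mulCorr D) 1 +
      tn (X := X) (Z := Z) 1 (C.mulCorr E) : Cor C (X.prod Z)) := by
    rw [boxSum, ext_one_right, ext_one_left, ← mulCorr_ext_left, ← mulCorr_ext_right]
    exact map_add (C.push _) _ _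
  exact h1

/-- **Products.** -/
theorem divisorEquation_prod {D : C.A X} {E : C.A Z} (h : DivisorEquation C D)
    (h' : DivisorEquation C E) : DivisorEquation C (boxSum C D E) := by
  have h1 : InSquare C (C.mulCorr D) := (inSquare_mulCorr D).2 h
  have h2 : InSquare C (C.mulCorr E) := (inSquare_mulCorr E).2 h'
  obtain ⟨z, hz, hz'⟩ := (inSquare_iff (C := C) (X := X) (mc D)).1 h1
  obtain ⟨w, hw, hw'⟩ := (inSquare_iff (C := C) (X := Z) (mc E)).1 h2
  refine (inSquare_mulCorr _).1 ?_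
  have e1 : mc (boxSum C D E) = tn (mc D) 1 + tn 1 (mc E) := mc_boxSum D E
  have e2 : InSquare C (X := X.prod Z) (tn (mc D) 1 + tn 1 (mc E) : Cor C (X.prod Z)) := by
    rw [inSquare_iff]
    refine ⟨tn z 1 + tn 1 w, ?_, ?_⟩
    · refine Submodule.add_mem _ ?_ ?_
      · have := tn_mem hz (crg_one (C := C) (X := Z))
        rwa [add_zero] at this
      · have := tn_mem (crg_one (C := C) (X := X)) hw
        rwa [zero_add] at this
    · have key : ∀ (a b : Cor C X) (a' b' : Cor C Z),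
          (tn a 1 + tn 1 a') * (tn b 1 + tn 1 b') - (tn b 1 + tn 1 b') * (tn a 1 + tn 1 a') =
            tn (a * b - b * a) 1 + tn 1 (a' * b' - b' * a') := by
        intro a b a' b'
        rw [tn_sub_left, tn_sub_right]
        simp only [mul_add, add_mul, tn_mul, one_mul, mul_one]
        abel
      rw [key, key, hz', hw']
  rw [← e1] at e2
  exact e2

end Pool.Agent.H92EQ
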