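import Pool.Agent.H92EQ.Chow

/-!
# Descent of hard Lefschetz in cohomology, and change of the cohomology theory
-/

open CategoryTheory AlgebraicGeometry

set_option autoImplicit false

universe u v w w'

namespace Pool.Agent.H92EQ

open Pool.Agent.H914 Pool.Agent.H914.VarClass Pool.Agent.H914.VarClass.Obj Pool.Agent.W492.BB
  Pool.Agent.W550.Corr Pool.Agent.TH133 Pool.Agent.Y107 Pool.Agent.H92SD

set_option linter.unusedSectionVars false

variable {k : Type u} [Field k] {𝒱 : VarClass k}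

variable {C : TheoryData.{u, v, 0} 𝒱 ℚ} [hC : IsChowProj C] {K : Type w} [Field K]
  {H : WeilTheoryData.{u, v, w} C K} [hH : IsWeilProj H] {X Y Z : 𝒱.Obj}

include hC hH

lemma act_pow (D : C.A X) (r : ℕ) (a : H.A X) :
    H.act (H.cl (corPow C (C.mulCorr D) r)) a = H.cl D ^ r * a := by
  have h1 : H.cl (C.mulCorr (D ^ r)) = H.mulCorr (H.cl (D ^ r)) := by
    rw [TheoryData.mulCorr, TheoryData.mulCorr, H.cl_push]
  rw [mulCorr_pow, h1, H.act_mulCorr, map_pow]

lemma cl_unit {N : ℚ} (hN : N ≠ 0) : H.cl (N⁻¹ • (1 : C.A X)) * H.cl (N • (1 : C.A X)) = 1 := by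
  rw [← map_mul, smul_mul_smul_comm, inv_mul_cancel₀ hN, one_smul, mul_one, map_one]

/-- **Hard Lefschetz descends.** -/
theorem hardLefschetz_down (g : Y ⟶ X) {D : C.A X} {η : C.A Y} {n : ℕ} {N : ℚ}
    (hdim : Y.dim = X.dim + n) (hD : C.Deg 1 D) (hη : C.Deg 1 η) (hη0 : η ^ (n + 1) = 0)
    (hN0 : N ≠ 0) (hN : C.push g (η ^ n) = N • 1)
    (h : HardLefschetzCor H Y (C.mulCorr (C.pull g D + η))) :
    HardLefschetzCor H X (C.mulCorr D) := by
  intro s hs
  obtain ⟨h1, h2⟩ := h (s + n) (by omega)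
  set P : H.A Y := H.cl (cof C (C.pull g D) η s n) with hP
  have hPm : P ∈ H.gr Y (2 * n) := H.cl_mem (cof_deg (C.pull_mem g hD) hη s n)
  have hpow : H.cl (C.pull g D + η) ^ (s + n) = H.pull g (H.cl D ^ s) * P := by
    rw [← map_pow, pow_eq_cof _ _ _ _ hη0, map_mul, ← map_pow (C.pull g), H.cl_pull, map_pow]
  have hpc : ∀ y : H.A Y, P * y = y * P := fun y => H.cl_central _ y
  have hu : ∀ x : H.A X, H.cl (N⁻¹ • (1 : C.A X)) * (H.cl (N • (1 : C.A X)) * x) = x := by
    intro x
    rw [← mul_assoc, cl_unit hN0, one_mul]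
  have hpush : ∀ x : H.A X, H.push g (H.cl (η ^ n) * H.pull g x) = H.cl (N • (1 : C.A X)) * x := by
    intro x
    rw [H.proj_right, ← H.cl_push, hN]
  constructor
  · intro x hx h0
    rw [act_pow] at h0
    have hy : H.pull g x ∈ H.gr Y ((Y.dim : ℤ) - ((s + n : ℕ) : ℤ)) := by
      have := H.pull_mem g hx
      rwa [show (X.dim : ℤ) - s = (Y.dim : ℤ) - ((s + n : ℕ) : ℤ) by
        rw [hdim]; push_cast; ring] at this
    have hy0 : H.pull g x = 0 := by
      refine h1 _ hy ?_
      rw [act_pow, hpow, ← hpc, mul_assoc, ← map_mul, h0, map_zero, mul_zero]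
    rw [← hu x, ← hpush x, hy0, mul_zero, map_zero, mul_zero]
  · intro z hz
    have hc : H.cl (η ^ n) * H.pull g z ∈ H.gr Y ((Y.dim : ℤ) + ((s + n : ℕ) : ℤ)) := by
      have h3 : H.cl (η ^ n) ∈ H.gr Y (2 * n) := H.cl_mem (pow_deg_one hη n)
      have := H.mul_mem h3 (H.pull_mem g hz)
      rwa [show 2 * (n : ℤ) + ((X.dim : ℤ) + s) = (Y.dim : ℤ) + ((s + n : ℕ) : ℤ) by
        rw [hdim]; push_cast; ring] at this
    obtain ⟨w, hw, hw2⟩ := h2 _ hc
    rw [act_pow, hpow] at hw2
    have hPw : H.push g (P * w) ∈ H.gr X ((X.dim : ℤ) - s) := by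
      have := H.push_mem g (H.mul_mem hPm hw)
      rwa [show 2 * (n : ℤ) + ((Y.dim : ℤ) - ((s + n : ℕ) : ℤ)) + 2 * ((X.dim : ℤ) - (Y.dim : ℤ)) =
        (X.dim : ℤ) - s by rw [hdim]; push_cast; ring] at this
    refine ⟨H.cl (N⁻¹ • (1 : C.A X)) * H.push g (P * w), ?_, ?_⟩
    · have h3 : H.cl (N⁻¹ • (1 : C.A X)) ∈ H.gr X (2 * 0) :=
        H.cl_mem (Submodule.smul_mem _ _ (C.one_mem X))
      have := H.mul_mem h3 hPw
      rwa [mul_zero, zero_add] at this
    · rw [act_pow, ← mul_assoc, ← H.cl_central, mul_assoc, ← H.proj_left, ← mul_assoc, hw2, hpush,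
        hu]

section indep

variable {K' : Type w'} [Field K'] {H' : WeilTheoryData.{u, v, w'} C K'} [hH' : IsWeilProj H']

omit hH in
/-- `MotivicLefschetz` in the ring of correspondences. -/
lemma exists_inv {L : Cor C X} {P : ℕ → Cor C X} (hPP : ∀ i j, P i * P j = if i = j then P i else 0)
    (hP0 : ∀ n, P n ∈ crg C X 0) (hL : L ∈ crg C X 1)
    (hM : MotivicLefschetz C (X := X) L P) (s : ℕ) (hs : s ≤ X.dim) :
    ∃ g ∈ crg C X (-s), L ^ s * g = P (X.dim + s) ∧ g * L ^ s = P (X.dim - s) := by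
  have h1 : ∀ n, L * P n = P (n + 2) * L := hM.homogeneous
  have h2 : ∀ (c n : ℕ), L ^ c * P n = P (n + 2 * c) * L ^ c := by
    intro c
    induction c with
    | zero => intro n; simp
    | succ c ih =>
      intro n
      rw [pow_succ', mul_assoc, ih, ← mul_assoc, h1, mul_assoc]
      rfl
  obtain ⟨g, hg0, k1, k2⟩ : ∃ g ∈ crg C X (-s), g * (L ^ s * P (X.dim - s)) = P (X.dim - s) ∧
      L ^ s * (g * P (X.dim + s)) = P (X.dim + s) := by
    obtain ⟨g, hg, hg1, hg2⟩ := hM.iso (X.dim - s) (by omega)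
    rw [show X.dim - (X.dim - s) = s by omega, corPow_eq] at hg1 hg2
    rw [show 2 * X.dim - (X.dim - s) = X.dim + s by omega] at hg2
    have h5 : g ∈ C.gr (X.prod X) ((X.dim : ℤ) + -(s : ℤ)) := by
      rw [show (X.dim : ℤ) + -(s : ℤ) = ((X.dim - s : ℕ) : ℤ) by omega]
      exact hg
    exact ⟨g, h5, hg1, hg2⟩
  have h3 : L ^ s * P (X.dim - s) = P (X.dim + s) * L ^ s := by
    rw [h2, show X.dim - s + 2 * s = X.dim + s by omega]
  refine ⟨P (X.dim - s) * g * P (X.dim + s), ?_, ?_, ?_⟩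
  · have := crg_mul (crg_mul (hP0 (X.dim - s)) hg0) (hP0 (X.dim + s))
    rwa [zero_add, add_zero] at this
  · calc L ^ s * (P (X.dim - s) * g * P (X.dim + s))
        = (L ^ s * P (X.dim - s)) * g * P (X.dim + s) := by simp only [mul_assoc]
      _ = P (X.dim + s) * (L ^ s * (g * P (X.dim + s))) := by
          rw [h3]; simp only [mul_assoc]
      _ = P (X.dim + s) := by rw [k2, hPP, if_pos rfl]
  · calc P (X.dim - s) * g * P (X.dim + s) * L ^ s
        = P (X.dim - s) * (g * (P (X.dim + s) * L ^ s)) := by simp only [mul_assoc]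
      _ = P (X.dim - s) := by rw [← h3, k1, hPP, if_pos rfl]

/-- The `sl(2)`-triple of a Chow-Kunneth decomposition with motivic hard Lefschetz; the weight
projectors of its element `h` are the given projectors. -/
theorem exists_triple {L : Cor C X} {P : ℕ → Cor C X} (hL : L ∈ crg C X 1) (hP : IsCK H X P)
    (hM : MotivicLefschetz C (X := X) L P) :
    ∃ h ∈ crg C X 0, ∃ f ∈ crg C X (-1), Sl2 h L f ∧
      (∀ n : ℕ, h * P n = ((n : ℚ) - X.dim) • P n) ∧
      ∀ n : ℕ, P n = wp h (X.dim + 1) ((n : ℤ) - X.dim) := by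
  have hPP := fun i j => hP.mul_eq i j
  have hP0 : ∀ n, P n ∈ crg C X 0 := fun n => crg_zero_iff.2 (hP.deg n)
  obtain ⟨f, hf, t⟩ := exists_sl2 hP hL (fun n => (hM.homogeneous n).symm)
    (fun s hs => exists_inv hPP hP0 hL hM s hs)
  have hE : L ^ (X.dim + 1) = 0 := crg_top (crg_pow hL (X.dim + 1)) (by push_cast; omega)
  have hF : f ^ (X.dim + 1) = 0 := crg_bot (crg_pow hf (X.dim + 1)) (by push_cast; omega)
  refine ⟨gradingElt C X P, gradingElt_mem hP, f, hf, t, gradingElt_mul hP, ?_⟩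
  intro m
  have h1 : ∀ n : ℕ, wp (gradingElt C X P) (X.dim + 1) ((n : ℤ) - X.dim) * P n = P n := by
    intro n
    apply wp_of_wt t hE hF
    rw [gradingElt_mul hP]
    push_cast
    rfl
  have h2 : ∀ m n : ℕ, m ≠ n → wp (gradingElt C X P) (X.dim + 1) ((m : ℤ) - X.dim) * P n = 0 := by
    intro m n hmn
    rw [← h1 n, ← mul_assoc, wp_mul t hE hF, if_neg (by omega), zero_mul]
  rcases Nat.lt_or_ge (2 * X.dim) m with hm | hm
  · have h3 : P m = 0 := hP.out m hm
    rw [h3, wp_out]
    unfold wts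
    rw [Finset.mem_Ioo]
    push_cast
    omega
  · rw [← mul_one (wp (gradingElt C X P) (X.dim + 1) ((m : ℤ) - X.dim)), ← hP.sum_eq,
      Finset.mul_sum, Finset.sum_eq_single m]
    · exact (h1 m).symm
    · intro n _ hn
      exact h2 m n (Ne.symm hn)
    · intro h4
      exact absurd (Finset.mem_range.2 (by omega)) h4

include hH'

/-- **Independence of the cohomology theory.** A Chow-Kunneth decomposition with respect to one Weil
cohomology theory, satisfying motivic hard Lefschetz for `L`, is a Chow-Kunneth decomposition with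
respect to every Weil cohomology theory for which `L` satisfies hard Lefschetz. -/
theorem isCK_other {L : Cor C X} {P : ℕ → Cor C X} (hL : L ∈ crg C X 1) (hP : IsCK H X P)
    (hM : MotivicLefschetz C (X := X) L P)
    (hHL : HardLefschetzCor H' X (L : C.A (X.prod X))) : IsCK H' X P := by
  obtain ⟨h, hh0, f, hf, t, hh, hw⟩ := exists_triple hL hP hM
  have hE : L ^ (X.dim + 1) = 0 := crg_top (crg_pow hL (X.dim + 1)) (by push_cast; omega)
  have hF : f ^ (X.dim + 1) = 0 := crg_bot (crg_pow hf (X.dim + 1)) (by push_cast; omega)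
  have hact := h_act (H := H') t.ef t.he hL hf hHL
  refine isCK_of (fun i => hP.deg i) (fun i hi => hP.out i hi) (fun i j => hP.mul_eq i j)
    hP.sum_eq ?_
  have hne : ∀ (i : ℕ) (m : ℤ) (a : H'.A X), a ∈ H'.gr X m → m ≠ i →
      actH C X H' (P i) a = 0 := by
    intro i m a ha hmi
    have e1 : h * P i = (((i : ℤ) - X.dim : ℤ) : Cor C X) * P i := by
      rw [hw i, h_wp t hE hF, Algebra.smul_def, map_intCast]
    have e2 : P i * h = h * P i := by
      rw [hw i]
      exact h_wp_comm _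
    have h2 := congrArg (fun y : Cor C X => actH C X H' y a) e2
    rw [e1] at h2
    simp only [map_mul, map_intCast, Module.End.mul_apply] at h2
    rw [hact m a ha, map_smul] at h2
    have e3 : ∀ (n : ℤ) (y : H'.A X), (n : Module.End K' (H'.A X)) y = (n : K') • y := by
      intro n y
      rw [Module.End.intCast_apply, Int.cast_smul_eq_zsmul]
    rw [e3, ← sub_eq_zero, ← sub_smul, smul_eq_zero] at h2
    rcases h2 with h2 | h2
    · exfalso
      have h3 : ((m - i : ℤ) : K') = 0 := by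
        rw [← h2]
        push_cast
        ring
      obtain ⟨n, hn⟩ := (m - i).eq_nat_or_neg
      have hn0 : n ≠ 0 := by
        rintro rfl
        apply hmi
        rcases hn with hn | hn <;> omega
      have h4 : ((n : ℕ) : K') = 0 := by
        rcases hn with hn | hn
        · rw [hn, Int.cast_natCast] at h3
          exact h3
        · rw [hn, Int.cast_neg, Int.cast_natCast, neg_eq_zero] at h3
          exact h3
      exact charZero_coeff H' X n hn0 h4
    · exact h2
  intro i m a ha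
  split_ifs with hmi
  · by_cases ha0 : a = 0
    · rw [ha0, map_zero]
    have hm1 : m ≤ 2 * X.dim := by
      by_contra hcon
      rw [gr_top H' (by omega)] at ha
      exact ha0 ((Submodule.mem_bot _).1 ha)
    have h3 : actH C X H' (∑ n ∈ Finset.range (2 * X.dim + 1), P n) a = a := by
      rw [hP.sum_eq, map_one]; rfl
    rw [map_sum, LinearMap.sum_apply, Finset.sum_eq_single i] at h3
    · exact h3
    · intro j _ hj
      refine hne j m a ha ?_
      intro h4
      apply hj
      omega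
    · intro h4
      exfalso
      apply h4
      rw [Finset.mem_range]
      omega
  · exact hne i m a ha hmi

end indep

end Pool.Agent.H92EQ
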