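import Pool.Agent.Y107.SDDefs

/-!
# Definitions for cancellation, descent and rigidity of motivic hard Lefschetz
-/

open CategoryTheory AlgebraicGeometry

set_option autoImplicit false

universe u v w

namespace Pool.Agent.H92EQ

open Pool.Agent.H914 Pool.Agent.H914.VarClass Pool.Agent.H914.VarClass.Obj Pool.Agent.W492.BB
  Pool.Agent.W550.Corr Pool.Agent.TH133 Pool.Agent.Y107

variable {k : Type u} [Field k] {𝒱 : VarClass k}

/-- The class `D × 1 + 1 × E` on `X × Z`. -/
noncomputable def boxPlus (C : TheoryData.{u, v, 0} 𝒱 ℚ) {X Z : 𝒱.Obj} (D : C.A X) (E : C.A Z) :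
    C.A (X.prod Z) :=
  C.ext D 1 + C.ext 1 E

/-- The class `D × 1 - 1 × D` on `X × X`. -/
noncomputable def boxDiff (C : TheoryData.{u, v, 0} 𝒱 ℚ) {X : 𝒱.Obj} (D : C.A X) :
    C.A (X.prod X) :=
  C.ext D 1 - C.ext 1 D

/-- The class `g^* D + η` on `Y`, for `g : Y → X`. -/
def pullAdd (C : TheoryData.{u, v, 0} 𝒱 ℚ) {X Y : 𝒱.Obj} (g : Y ⟶ X) (D : C.A X) (η : C.A Y) :
    C.A Y :=
  C.pull g D + η

/-- `g : Y → X` is a morphism, `η` a divisor class on `Y` with `η^(m+1) = 0`, and `A` a cycle of
codimension `dim Y - dim X - m` on `Y` such that `g_* (A η^m)` is a non-zero multiple of `[X]`. -/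
structure RelPower (C : TheoryData.{u, v, 0} 𝒱 ℚ) {X Y : 𝒱.Obj} (g : Y ⟶ X) (A η : C.A Y)
    (m : ℕ) : Prop where
  deg : C.Deg ((Y.dim : ℤ) - X.dim - m) A
  deg_one : C.Deg 1 η
  nilp : η ^ (m + 1) = 0
  push : ∃ N : ℚ, N ≠ 0 ∧ C.push g (A * η ^ m) = N • 1

/-- The composition `∑ π' n ∘ π n`. -/
noncomputable def transition (C : TheoryData.{u, v, 0} 𝒱 ℚ) {X : 𝒱.Obj}
    (π π' : ℕ → C.A (X.prod X)) : C.A (X.prod X) :=
  ∑ n ∈ Finset.range (2 * X.dim + 1), C.comp (π n) (π' n)

section coh

variable {C : TheoryData.{u, v, 0} 𝒱 ℚ} {K : Type w} [Field K]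

/-- `π` is a Chow-Kunneth decomposition of `X`, not necessarily self-dual, satisfying motivic hard
Lefschetz for the correspondence `L` of degree one. -/
structure LefschetzCK (H : WeilTheoryData.{u, v, w} C K) {X : 𝒱.Obj} (L : C.A (X.prod X))
    (π : ℕ → C.A (X.prod X)) : Prop where
  ck : IsCK H X π
  lefschetz : MotivicLefschetz C L π

/-- `X` has a Chow-Kunneth decomposition, not necessarily self-dual, satisfying motivic hard
Lefschetz for the divisor class `D`. -/
def HasLefschetz (H : WeilTheoryData.{u, v, w} C K) {X : 𝒱.Obj} (D : C.A X) : Prop :=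
  ∃ π, LefschetzCK H (C.mulCorr D) π

/-- `X` has a self-dual Chow-Kunneth decomposition satisfying motivic hard Lefschetz for the
divisor class `D`. -/
def HasSelfDualLefschetz (H : WeilTheoryData.{u, v, w} C K) {X : 𝒱.Obj} (D : C.A X) : Prop :=
  ∃ π, SelfDualLefschetz H (C.mulCorr D) π

/-- Statement of rigidity: `π` and `π'` are conjugate by `u = ∑ π' n ∘ π n`, which commutes with `L`,
acts as the identity on cohomology, is inverse to `∑ π n ∘ π' n`, only raises the weights, and is the
identity on the graded pieces. -/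
structure Rigid (H : WeilTheoryData.{u, v, w} C K) {X : 𝒱.Obj} (L : C.A (X.prod X))
    (π π' : ℕ → C.A (X.prod X)) : Prop where
  inverse : C.comp (transition C π π') (transition C π' π) = dg C X
  commutes : C.comp L (transition C π π') = C.comp (transition C π π') L
  conj : ∀ n, C.comp (π n) (transition C π π') = C.comp (transition C π π') (π' n)
  cohomology : ∀ a : H.A X, H.act (H.cl (transition C π π')) a = a
  raises : ∀ a b, a < b → C.comp (π' b) (π a) = 0
  graded : ∀ n, C.comp (C.comp (π n) (transition C π π')) (π n) = π n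

/-- `u = ∑ π' n ∘ π n` conjugates `π` into `π'` and has the properties of `Rigid`; it is an isometry
if `π` and `π'` are self-dual; and `π = π'` if homologically trivial correspondences strictly lower
the weights. -/
structure Rigidity (H : WeilTheoryData.{u, v, w} C K) {X : 𝒱.Obj} (L : C.A (X.prod X))
    (π π' : ℕ → C.A (X.prod X)) : Prop where
  rigid : Rigid H L π π'
  isometry : IsSelfDual C π → IsSelfDual C π' → tp C (transition C π π') = transition C π' π
  unique : StrictlyLowers H X → π = π'

end coh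

end Pool.Agent.H92EQ
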