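import Pool.Agent.H92EQ.Coh

/-!
# Descent, cancellation, and rigidity of motivic hard Lefschetz
-/

open CategoryTheory AlgebraicGeometry

set_option autoImplicit false

universe u v w w'

namespace Pool.Agent.H92EQ

open Pool.Agent.H914 Pool.Agent.H914.VarClass Pool.Agent.H914.VarClass.Obj Pool.Agent.W492.BB
  Pool.Agent.W550.Corr Pool.Agent.TH133 Pool.Agent.Y107 Pool.Agent.H92SD

set_option linter.unusedSectionVars false

variable {k : Type u} [Field k] {𝒱 : VarClass k}

variable {C : TheoryData.{u, v, 0} 𝒱 ℚ} [hC : IsChowProj C] {K : Type w} [Field K]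
  {H : WeilTheoryData.{u, v, w} C K} [hH : IsWeilProj H] {X Y Z : 𝒱.Obj}

include hC hH

/-- From the divisibility of the diagonal to the self-dual decomposition. -/
theorem selfDual_of_multiples {D : C.A X} (hD : C.Deg 1 D)
    (hHL : HardLefschetzCor H X (C.mulCorr D)) (h : DiagonalMultiples C D) :
    ∃ π, SelfDualLefschetz H (C.mulCorr D) π := by
  have h1 : InSquare C (C.mulCorr D) := (inSquare_mulCorr D).2 ((divisorEquation_iff hD).2 h)
  obtain ⟨π, h2, h3, h4⟩ := exists_selfDual_of_inSquare (C := C) (X := X) (H := H)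
    (L := mc D) (mulCorr_mem hD) (tp_mulCorr D) hHL h1
  exact ⟨π, h2, h3, h4⟩

/-- From the decomposition to the divisibility of the diagonal. -/
theorem multiples_of_lefschetz {D : C.A X} (hD : C.Deg 1 D)
    (h : ∃ π, IsCK H X π ∧ MotivicLefschetz C (C.mulCorr D) π) : DiagonalMultiples C D := by
  obtain ⟨π, h1, h2⟩ := h
  exact (powersRegular_mulCorr D).1 (powersRegular_of_motivicLefschetz (C := C) (X := X) (H := H)
    (L := mc D) (mulCorr_mem hD) h1 h2)

/-- **Descent.** -/
theorem descent (g : Y ⟶ X) {D : C.A X} {η : C.A Y} {n : ℕ} {N : ℚ}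
    (hdim : Y.dim = X.dim + n) (hD : C.Deg 1 D) (hη : C.Deg 1 η) (hη0 : η ^ (n + 1) = 0)
    (hN0 : N ≠ 0) (hN : C.push g (η ^ n) = N • 1)
    (h : ∃ π, IsCK H Y π ∧ MotivicLefschetz C (C.mulCorr (C.pull g D + η)) π) :
    ∃ π, SelfDualLefschetz H (C.mulCorr D) π := by
  have hDY : C.Deg 1 (C.pull g D + η) := Submodule.add_mem _ (C.pull_mem g hD) hη
  have h1 := multiples_of_lefschetz hDY h
  have h2 : DiagonalMultiples C D := diagonalMultiples_descend g (A := 1) (m := n) hD (by
    rw [hdim, show ((X.dim + n : ℕ) : ℤ) - X.dim - n = 0 by push_cast; ring]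
    exact C.one_mem Y) hη hη0 hN0 (by rw [one_mul]; exact hN) h1
  obtain ⟨π, hπ, hM⟩ := h
  exact selfDual_of_multiples hD (hardLefschetz_down g hdim hD hη hη0 hN0 hN
    (hardLefschetz_of_motivic hπ hM)) h2

/-- The degree of the top power is not zero. -/
lemma degree_ne_zero (g : Y ⟶ X) {D : C.A X} {η : C.A Y} {n : ℕ} {N : ℚ}
    (hdim : Y.dim = X.dim + n) (hD : C.Deg 1 D) (hη : C.Deg 1 η) (hη0 : η ^ (n + 1) = 0)
    (hN : C.push g (η ^ n) = N • 1)
    (h : HardLefschetzCor H Y (C.mulCorr (C.pull g D + η))) : N ≠ 0 := by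
  rintro rfl
  have h1 : H.cl (C.pull g D + η) ^ Y.dim = 0 := by
    apply H.nondeg
    have htop : H.cl (C.pull g D + η) ^ Y.dim ∈ H.gr Y (2 * Y.dim) := by
      rw [← map_pow]
      exact H.cl_mem (pow_deg_one (Submodule.add_mem _ (C.pull_mem g hD) hη) _)
    have htr : H.tr Y (H.cl (C.pull g D + η) ^ Y.dim) = 0 := by
      have h2 : C.push g ((C.pull g D + η) ^ Y.dim) = 0 := by
        rw [hdim, pow_eq_cof _ _ _ _ hη0, ← map_pow, C.proj_left]
        have h3 := push_cof g (D := D) (A := 1) (η := η) (m := n) (N := 0) (by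
          rw [hdim, show ((X.dim + n : ℕ) : ℤ) - X.dim - n = 0 by push_cast; ring]
          exact C.one_mem Y) hη (by rw [one_mul]; exact hN) X.dim
        rw [one_mul, zero_mul, zero_smul] at h3
        rw [h3, mul_zero]
      rw [← H.tr_push g, ← map_pow, ← H.cl_push, h2, map_zero, map_zero]
    have h0 : (H.tr Y ∘ₗ LinearMap.mulLeft K (H.cl (C.pull g D + η) ^ Y.dim)) = 0 := by
      apply ext_gr H
      intro j b hb
      rw [LinearMap.comp_apply, LinearMap.mulLeft_apply, LinearMap.zero_apply]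
      by_cases hj : j = 0
      · subst hj
        obtain ⟨c, rfl⟩ := hH.gr_zero Y b hb
        rw [mul_smul_comm, mul_one, map_smul, htr, smul_zero]
      · exact tr_zero H (H.mul_mem htop hb) (by omega)
    intro b
    exact LinearMap.congr_fun h0 b
  have h2 := (h Y.dim le_rfl).1 1 (by
    rw [sub_self]
    exact H.one_mem Y) (by rw [act_pow, h1, zero_mul])
  exact hH.one_ne_zero Y h2

/-- Hard Lefschetz for a product. -/
lemma hardLefschetz_boxSum {D : C.A X} {E : C.A Z} (hD : C.Deg 1 D) (hE : C.Deg 1 E)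
    {π : ℕ → Cor C X} {π' : ℕ → Cor C Z}
    (hπ : IsCK H X π) (hM : MotivicLefschetz C (X := X) (mc D) π)
    (hπ' : IsCK H Z π') (hM' : MotivicLefschetz C (X := Z) (mc E) π') :
    HardLefschetzCor H (X.prod Z) (C.mulCorr (boxSum C D E)) := by
  have mD : mc D ∈ crg C X 1 := mulCorr_mem hD
  have mE : mc E ∈ crg C Z 1 := mulCorr_mem hE
  obtain ⟨h, _, f, hf, t, hh, _⟩ := exists_triple mD hπ hM
  obtain ⟨h', _, f', hf', t', hh', _⟩ := exists_triple mE hπ' hM'
  have T := sl2_tn t t'
  have hck : IsCK H (X.prod Z) (PP π π') := hπ.prod hπ'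
  have hE : tn (mc D) (1 : Cor C Z) + tn (1 : Cor C X) (mc E) ∈ crg C (X.prod Z) 1 := by
    refine Submodule.add_mem _ ?_ ?_
    · have := tn_mem mD (crg_one (C := C) (X := Z))
      rwa [add_zero] at this
    · have := tn_mem (crg_one (C := C) (X := X)) mE
      rwa [zero_add] at this
  have hF : tn f (1 : Cor C Z) + tn (1 : Cor C X) f' ∈ crg C (X.prod Z) (-1) := by
    refine Submodule.add_mem _ ?_ ?_
    · have := tn_mem hf (crg_one (C := C) (X := Z))
      rwa [add_zero] at this
    · have := tn_mem (crg_one (C := C) (X := X)) hf'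
      rwa [zero_add] at this
  have hh : ∀ n, (tn h (1 : Cor C Z) + tn (1 : Cor C X) h') * PP π π' n =
      ((n : ℚ) - (X.prod Z).dim) • PP π π' n := by
    intro n
    unfold PP
    rw [Finset.mul_sum, Finset.smul_sum]
    apply Finset.sum_congr rfl
    intro i hi
    rw [Finset.mem_range] at hi
    rw [add_mul, tn_mul, tn_mul, one_mul, one_mul, hh, hh', tn_smul_left, tn_smul_right,
      ← add_smul, dim_prod]
    congr 1
    push_cast [Nat.cast_sub (show i ≤ n by omega)]
    ring
  intro r hr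
  obtain ⟨g, hg, g1, g2⟩ := lefschetz_of_sl2 hck T hE hF hh r hr
  rw [← mc_boxSum] at g1 g2
  have e1 : ∀ a : H.A (X.prod Z), H.act (H.cl (corPow C (C.mulCorr (boxSum C D E)) r)) a =
      actH C (X.prod Z) H (mc (boxSum C D E) ^ r) a := by
    intro a
    have := corPow_eq (C := C) (mc (boxSum C D E)) r
    change H.act (H.cl (corPow C (C.mulCorr (boxSum C D E)) r)) a =
      H.act (H.cl ((mc (boxSum C D E) ^ r : Cor C (X.prod Z)) :
        C.A ((X.prod Z).prod (X.prod Z)))) a
    rw [← this]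
    rfl
  constructor
  · intro a ha h0
    rw [e1] at h0
    have h3 : actH C (X.prod Z) H (PP π π' ((X.prod Z).dim - r)) a = a :=
      hck.act_self _ a (by
        rwa [show (((X.prod Z).dim - r : ℕ) : ℤ) = ((X.prod Z).dim : ℤ) - r by omega])
    rw [← h3, ← g2, map_mul, Module.End.mul_apply, h3, map_mul, Module.End.mul_apply, h0, map_zero]
  · intro b hb
    have h3 : actH C (X.prod Z) H (PP π π' ((X.prod Z).dim + r)) b = b :=
      hck.act_self _ b (by
        rwa [show (((X.prod Z).dim + r : ℕ) : ℤ) = ((X.prod Z).dim : ℤ) + r by omega])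
    refine ⟨actH C (X.prod Z) H g b, ?_, ?_⟩
    · have := actH_crg (H := H) hg hb
      rwa [show ((X.prod Z).dim : ℤ) + r + 2 * -(r : ℤ) = (X.prod Z).dim - r by ring] at this
    · rw [e1, ← Module.End.mul_apply, ← map_mul, g1, h3]

/-- **Products and cancellation.** -/
theorem prod_iff {D : C.A X} {E : C.A Z} (hD : C.Deg 1 D) (hE : C.Deg 1 E) :
    (∃ π, IsCK H (X.prod Z) π ∧ MotivicLefschetz C (C.mulCorr (boxSum C D E)) π) ↔
      (∃ π, SelfDualLefschetz H (C.mulCorr D) π) ∧ ∃ π, SelfDualLefschetz H (C.mulCorr E) π := by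
  constructor
  · intro h
    have hHL : HardLefschetzCor H (X.prod Z) (C.mulCorr (boxSum C D E)) := by
      obtain ⟨π, h1, h2⟩ := h
      exact hardLefschetz_of_motivic h1 h2
    have b1 : boxSum C D E = C.pull (fst X Z) D + C.pull (snd X Z) E := by
      rw [boxSum, ext_one_right, ext_one_left]
    have b2 : boxSum C D E = C.pull (snd X Z) E + C.pull (fst X Z) D := by
      rw [b1, add_comm]
    have top : ∀ {T : 𝒱.Obj} {F : C.A T}, C.Deg 1 F → F ^ (T.dim + 1) = 0 := fun hF =>
      hC.gr_top _ _ _ (pow_deg_one hF _) (by push_cast; omega)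
    constructor
    · obtain ⟨q, hq⟩ := exists_hasDegree (C := C) (x := E ^ Z.dim) (pow_deg_one hE _)
      have hη0 : C.pull (snd X Z) E ^ (Z.dim + 1) = 0 := by rw [← map_pow, top hE, map_zero]
      have hN : C.push (fst X Z) (C.pull (snd X Z) E ^ Z.dim) = q • 1 := by
        rw [← map_pow]
        exact (hq X).2
      rw [b1] at h hHL
      have hq0 := degree_ne_zero (fst X Z) (dim_prod X Z) hD (C.pull_mem _ hE) hη0 hN hHL
      exact descent (fst X Z) (dim_prod X Z) hD (C.pull_mem _ hE) hη0 hq0 hN h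
    · obtain ⟨q, hq⟩ := exists_hasDegree (C := C) (x := D ^ X.dim) (pow_deg_one hD _)
      have hη0 : C.pull (fst X Z) D ^ (X.dim + 1) = 0 := by rw [← map_pow, top hD, map_zero]
      have hN : C.push (snd X Z) (C.pull (fst X Z) D ^ X.dim) = q • 1 := by
        rw [← map_pow]
        exact (hq Z).1
      rw [b2] at h hHL
      have hdim : (X.prod Z).dim = Z.dim + X.dim := by rw [dim_prod, add_comm]
      have hq0 := degree_ne_zero (snd X Z) hdim hE (C.pull_mem _ hD) hη0 hN hHL
      exact descent (snd X Z) hdim hE (C.pull_mem _ hD) hη0 hq0 hN h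
  · rintro ⟨⟨π, h1⟩, π', h2⟩
    have hB : C.Deg 1 (boxSum C D E) := by
      rw [boxSum, ext_one_right, ext_one_left]
      exact Submodule.add_mem _ (C.pull_mem _ hD) (C.pull_mem _ hE)
    have h3 : DivisorEquation C (boxSum C D E) := divisorEquation_prod
      ((divisorEquation_iff hD).2 (multiples_of_lefschetz hD ⟨π, h1.ck, h1.lefschetz⟩))
      ((divisorEquation_iff hE).2 (multiples_of_lefschetz hE ⟨π', h2.ck, h2.lefschetz⟩))
    obtain ⟨ρ, h4⟩ := selfDual_of_multiples hB
      (hardLefschetz_boxSum hD hE h1.ck h1.lefschetz h2.ck h2.lefschetz)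
      ((divisorEquation_iff hB).1 h3)
    exact ⟨ρ, h4.ck, h4.lefschetz⟩

end Pool.Agent.H92EQ
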