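import Pool.Agent.H92EQ.Rigid

/-!
# Nilpotence of commutators with `L` which commute with `L`
-/

open CategoryTheory AlgebraicGeometry

set_option autoImplicit false

universe u v w

namespace Pool.Agent.H92EQ

open Pool.Agent.H914 Pool.Agent.H914.VarClass Pool.Agent.H914.VarClass.Obj Pool.Agent.W492.BB
  Pool.Agent.W550.Corr Pool.Agent.TH133 Pool.Agent.Y107 Pool.Agent.H92SD

set_option linter.unusedSectionVars false

variable {k : Type u} [Field k] {𝒱 : VarClass k}

variable {C : TheoryData.{u, v, 0} 𝒱 ℚ} [hC : IsChowProj C] {K : Type w} [Field K]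
  {H : WeilTheoryData.{u, v, w} C K} [hH : IsWeilProj H] {X : 𝒱.Obj}

include hC hH

variable {L : Cor C X} {P : ℕ → Cor C X} (hL : L ∈ crg C X 1)
  (hP : IsCK H X P) (hM : MotivicLefschetz C (X := X) L P) {z y : Cor C X}
  (hz : L * z = z * L) (hy : z = L * y - y * L)

include hL hP hM hz hy

lemma raising_P {a b : ℕ} (hab : b ≤ a) : P b * z * P a = 0 := by
  obtain ⟨h, _, f, hf, t, _, hw⟩ := exists_triple hL hP hM
  have hE : L ^ (X.dim + 1) = 0 := crg_top (crg_pow hL (X.dim + 1)) (by push_cast; omega)
  have hF : f ^ (X.dim + 1) = 0 := crg_bot (crg_pow hf (X.dim + 1)) (by push_cast; omega)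
  rw [hw a, hw b]
  exact raising t hE hF hz hy (by omega)

lemma raising_pow (m : ℕ) : ∀ a b : ℕ, b < a + m → P b * z ^ m * P a = 0 := by
  have hPP := fun i j => hP.mul_eq i j
  induction m with
  | zero =>
    intro a b hab
    rw [pow_zero, mul_one, hPP, if_neg (by omega)]
  | succ m ih =>
    intro a b hab
    have e1 : P b * z ^ (m + 1) * P a = ∑ c ∈ Finset.range (2 * X.dim + 1),
        (P b * z * P c) * (P c * z ^ m * P a) := by
      have e2 : ∀ c ∈ Finset.range (2 * X.dim + 1), (P b * z * P c) * (P c * z ^ m * P a) =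
          P b * z * P c * (z ^ m * P a) := by
        intro c _
        have e3 : P c * P c = P c := by rw [hPP, if_pos rfl]
        calc (P b * z * P c) * (P c * z ^ m * P a) = P b * z * (P c * P c) * (z ^ m * P a) := by
              simp only [mul_assoc]
          _ = _ := by rw [e3]
      rw [Finset.sum_congr rfl e2, ← Finset.sum_mul, ← Finset.mul_sum, hP.sum_eq, mul_one,
        pow_succ']
      simp only [mul_assoc]
    rw [e1]
    apply Finset.sum_eq_zero
    intro c _
    rcases le_or_gt b c with h1 | h1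
    · rw [raising_P hL hP hM hz hy h1, zero_mul]
    · rw [ih a c (by omega), mul_zero]

theorem pow_eq_zero_of_commutator : z ^ (2 * X.dim + 1) = 0 := by
  have e1 : z ^ (2 * X.dim + 1) = ∑ b ∈ Finset.range (2 * X.dim + 1),
      ∑ a ∈ Finset.range (2 * X.dim + 1), P b * z ^ (2 * X.dim + 1) * P a := by
    have e2 : ∀ b ∈ Finset.range (2 * X.dim + 1), ∑ a ∈ Finset.range (2 * X.dim + 1),
        P b * z ^ (2 * X.dim + 1) * P a = P b * z ^ (2 * X.dim + 1) := by
      intro b _
      rw [← Finset.mul_sum, hP.sum_eq, mul_one]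
    rw [Finset.sum_congr rfl e2, ← Finset.sum_mul, hP.sum_eq, one_mul]
  rw [e1]
  refine Finset.sum_eq_zero fun b hb => Finset.sum_eq_zero fun a _ => ?_
  rw [Finset.mem_range] at hb
  exact raising_pow hL hP hM hz hy _ a b (by omega)

theorem cl_eq_zero_of_commutator (hz0 : z ∈ crg C X 0) : H.cl (X := X.prod X) z = 0 := by
  apply hom_zero_of_act
  intro a
  have h1 : actH C X H z = 0 := by
    apply ext_gr H
    intro i b hb
    rw [LinearMap.zero_apply]
    by_cases hb0 : b = 0
    · rw [hb0, map_zero]
    obtain ⟨n, rfl⟩ := Int.eq_ofNat_of_zero_le (nonneg_of_mem H hb hb0)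
    have h2 : actH C X H (P n) b = b := hP.act_self n b hb
    have h3 : actH C X H z b ∈ H.gr X n := by
      have := actH_crg (H := H) hz0 hb
      rwa [mul_zero, add_zero] at this
    have h4 : actH C X H (P n) (actH C X H z b) = actH C X H z b := hP.act_self n _ h3
    rw [← h4, ← h2, ← Module.End.mul_apply, ← Module.End.mul_apply, ← map_mul, ← map_mul,
      raising_P hL hP hM hz hy le_rfl, map_zero]
    rfl
  exact LinearMap.congr_fun h1 a

end Pool.Agent.H92EQ
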