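import Pool.Agent.H92EQ.Coh
import Pool.Agent.H92EQ.Defs

/-!
# Rigidity of Chow-Kunneth decompositions with motivic hard Lefschetz
-/

open CategoryTheory AlgebraicGeometry

set_option autoImplicit false

universe u v w

namespace Pool.Agent.H92EQ

open Pool.Agent.H914 Pool.Agent.H914.VarClass Pool.Agent.H914.VarClass.Obj Pool.Agent.W492.BB
  Pool.Agent.W550.Corr Pool.Agent.TH133 Pool.Agent.Y107 Pool.Agent.H92SD

set_option linter.unusedSectionVars false

variable {k : Type u} [Field k] {𝒱 : VarClass k}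

variable {C : TheoryData.{u, v, 0} 𝒱 ℚ} [hC : IsChowProj C] {K : Type w} [Field K]
  {H : WeilTheoryData.{u, v, w} C K} [hH : IsWeilProj H] {X : 𝒱.Obj}

include hC hH

section ring

variable {L : Cor C X} {P P' : ℕ → Cor C X} (hL : L ∈ crg C X 1)
  (hP : IsCK H X P) (hM : MotivicLefschetz C (X := X) L P)
  (hP' : IsCK H X P') (hM' : MotivicLefschetz C (X := X) L P')

include hL hP hM hP' hM'

lemma lt_zero {a b : ℕ} (hab : a < b) : P a * P' b = 0 := by
  obtain ⟨h, _, f, hf, t, _, hw⟩ := exists_triple hL hP hM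
  obtain ⟨h', _, f', hf', t', _, hw'⟩ := exists_triple hL hP' hM'
  have hE : L ^ (X.dim + 1) = 0 := crg_top (crg_pow hL (X.dim + 1)) (by push_cast; omega)
  have hF : f ^ (X.dim + 1) = 0 := crg_bot (crg_pow hf (X.dim + 1)) (by push_cast; omega)
  have hF' : f' ^ (X.dim + 1) = 0 := crg_bot (crg_pow hf' (X.dim + 1)) (by push_cast; omega)
  rw [hw a, hw' b]
  exact wp_wp_lt t hE hF t' hF' (by omega)

lemma sandwich (n : ℕ) : P n * P' n * P n = P n := by
  obtain ⟨h, _, f, hf, t, _, hw⟩ := exists_triple hL hP hM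
  obtain ⟨h', _, f', hf', t', _, hw'⟩ := exists_triple hL hP' hM'
  have hE : L ^ (X.dim + 1) = 0 := crg_top (crg_pow hL (X.dim + 1)) (by push_cast; omega)
  have hF : f ^ (X.dim + 1) = 0 := crg_bot (crg_pow hf (X.dim + 1)) (by push_cast; omega)
  have hF' : f' ^ (X.dim + 1) = 0 := crg_bot (crg_pow hf' (X.dim + 1)) (by push_cast; omega)
  rw [hw n, hw' n]
  exact wp_wp_wp t hE hF t' hF' _

end ring

omit hH in
/-- `∑ P' n ∘ P n`. -/
noncomputable def cj (X : 𝒱.Obj) (P P' : ℕ → Cor C X) : Cor C X :=
  ∑ n ∈ Finset.range (2 * X.dim + 1), P' n * P n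

lemma cj_mul_P {P P' : ℕ → Cor C X} (hP : IsCK H X P) (n : ℕ) :
    cj X P P' * P n = P' n * P n := by
  unfold cj
  rw [Finset.sum_mul]
  have hPP := fun i j => hP.mul_eq i j
  rcases Nat.lt_or_ge (2 * X.dim) n with hn | hn
  · have h1 : P n = 0 := hP.out n hn
    rw [h1, mul_zero]
    exact Finset.sum_eq_zero fun i _ => mul_zero _
  · rw [Finset.sum_eq_single n]
    · rw [mul_assoc, hPP, if_pos rfl]
    · intro m _ hm
      rw [mul_assoc, hPP, if_neg hm, mul_zero]
    · intro h1
      exact absurd (Finset.mem_range.2 (by omega)) h1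

lemma P_mul_cj {P P' : ℕ → Cor C X} (hP' : IsCK H X P') (n : ℕ) :
    P' n * cj X P P' = P' n * P n := by
  unfold cj
  rw [Finset.mul_sum]
  have hPP := fun i j => hP'.mul_eq i j
  rcases Nat.lt_or_ge (2 * X.dim) n with hn | hn
  · have h1 : P' n = 0 := hP'.out n hn
    rw [h1, zero_mul]
    exact Finset.sum_eq_zero fun i _ => zero_mul _
  · rw [Finset.sum_eq_single n]
    · rw [← mul_assoc, hPP, if_pos rfl]
    · intro m _ hm
      rw [← mul_assoc, hPP, if_neg (Ne.symm hm), zero_mul]
    · intro h1
      exact absurd (Finset.mem_range.2 (by omega)) h1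

section ring2

variable {L : Cor C X} {P P' : ℕ → Cor C X} (hL : L ∈ crg C X 1)
  (hP : IsCK H X P) (hM : MotivicLefschetz C (X := X) L P)
  (hP' : IsCK H X P') (hM' : MotivicLefschetz C (X := X) L P')

include hL hP hM hP' hM'

lemma cj_cj : cj X P' P * cj X P P' = 1 := by
  have h1 : ∀ n ∈ Finset.range (2 * X.dim + 1), cj X P' P * (P' n * P n) = P n := by
    intro n _
    rw [← mul_assoc, cj_mul_P hP', sandwich hL hP hM hP' hM']
  have h2 : cj X P' P * cj X P P' = ∑ n ∈ Finset.range (2 * X.dim + 1), P n := by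
    rw [← Finset.sum_congr rfl h1, ← Finset.mul_sum]
    rfl
  rw [h2]
  exact hP.sum_eq

lemma cj_comm : cj X P P' * L = L * cj X P P' := by
  have h1 : ∀ n, L * P n = P (n + 2) * L := hM.homogeneous
  have h1' : ∀ n, L * P' n = P' (n + 2) * L := hM'.homogeneous
  have h2 : ∀ n ∈ Finset.range (2 * X.dim + 1), cj X P P' * L * P n = L * cj X P P' * P n := by
    intro n _
    rw [mul_assoc, h1, ← mul_assoc, cj_mul_P hP, mul_assoc L, cj_mul_P hP, ← mul_assoc, h1',
      mul_assoc, mul_assoc, h1]
  have h3 := Finset.sum_congr rfl h2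
  rwa [← Finset.mul_sum, ← Finset.mul_sum, hP.sum_eq, mul_one, mul_one] at h3

/-- On the graded pieces `∑ P' n ∘ P n` is the identity, and it only raises the weights. -/
lemma cj_graded {a b : ℕ} (hab : b ≤ a) : P b * cj X P P' * P a = if b = a then P a else 0 := by
  rw [mul_assoc, cj_mul_P hP, ← mul_assoc]
  split_ifs with h
  · subst h
    exact sandwich hL hP hM hP' hM' b
  · rw [lt_zero hL hP hM hP' hM' (by omega), zero_mul]

/-- Uniqueness if homologically trivial correspondences lower the weights. -/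
lemma unique_of_lowers (hS : StrictlyLowers H X) : P = P' := by
  obtain ⟨h, hh0, f, hf, t, _, hw⟩ := exists_triple hL hP hM
  obtain ⟨h', hh0', f', hf', t', _, hw'⟩ := exists_triple hL hP' hM'
  have hE : L ^ (X.dim + 1) = 0 := crg_top (crg_pow hL (X.dim + 1)) (by push_cast; omega)
  have hF : f ^ (X.dim + 1) = 0 := crg_bot (crg_pow hf (X.dim + 1)) (by push_cast; omega)
  have hF' : f' ^ (X.dim + 1) = 0 := crg_bot (crg_pow hf' (X.dim + 1)) (by push_cast; omega)
  have hHL : HardLefschetzCor H X (L : C.A (X.prod X)) := hardLefschetz_of_motivic hP hM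
  have hact := h_act (H := H) t.ef t.he hL hf hHL
  have hact' := h_act (H := H) t'.ef t'.he hL hf' hHL
  set z : Cor C X := h' - h with hz
  have hz0 : z ∈ crg C X 0 := Submodule.sub_mem _ hh0' hh0
  have hzcl : H.cl (X := X.prod X) z = 0 := by
    apply hom_zero_of_act
    intro a
    have h1 : actH C X H z = 0 := by
      apply ext_gr H
      intro i b hb
      rw [hz, map_sub, LinearMap.sub_apply, hact i b hb, hact' i b hb, sub_self]
      rfl
    exact LinearMap.congr_fun h1 a
  have hlow : ∀ a b : ℕ, a ≤ b → P b * z * P a = 0 := by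
    intro a b hab
    have := hS P hP z (crg_zero_iff.1 hz0) hzcl a b hab
    rw [mul_assoc]
    exact this
  have hraise : ∀ a b : ℕ, b ≤ a → P b * z * P a = 0 := by
    intro a b hab
    rw [hw a, hw b]
    exact raising_sub t hE hF t' hF' (by omega)
  have hz1 : z = 0 := by
    have h1 : z = ∑ b ∈ Finset.range (2 * X.dim + 1), ∑ a ∈ Finset.range (2 * X.dim + 1),
        P b * z * P a := by
      have e1 : ∀ b ∈ Finset.range (2 * X.dim + 1), ∑ a ∈ Finset.range (2 * X.dim + 1),
          P b * z * P a = P b * z := by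
        intro b _
        rw [← Finset.mul_sum, hP.sum_eq, mul_one]
      rw [Finset.sum_congr rfl e1, ← Finset.sum_mul, hP.sum_eq, one_mul]
    rw [h1]
    refine Finset.sum_eq_zero fun b _ => Finset.sum_eq_zero fun a _ => ?_
    rcases le_total a b with hab | hab
    · exact hlow a b hab
    · exact hraise a b hab
  have hhh : h' = h := sub_eq_zero.1 hz1
  funext n
  rw [hw n, hw' n, hhh]

end ring2

omit hH in
lemma transition_eq (P P' : ℕ → Cor C X) : transition C (X := X) P P' = cj X P P' := rfl

theorem rigid {L : Cor C X} {P P' : ℕ → Cor C X} (hL : L ∈ crg C X 1)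
    (hP : IsCK H X P) (hM : MotivicLefschetz C (X := X) L P)
    (hP' : IsCK H X P') (hM' : MotivicLefschetz C (X := X) L P') :
    Rigid H (X := X) L P P' where
  inverse := cj_cj hL hP hM hP' hM'
  commutes := cj_comm hL hP hM hP' hM'
  conj n := by
    change cj X P P' * P n = P' n * cj X P P'
    rw [cj_mul_P hP, P_mul_cj hP']
  cohomology a := by
    have h1 : actH C X H (cj X P P') = 1 := by
      apply ext_gr H
      intro i b hb
      have h2 : ∀ n, actH C X H (P' n * P n) b = actH C X H (P n) b := by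
        intro n
        rw [map_mul, Module.End.mul_apply]
        have e1 : actH C X H (P n) b = if i = n then b else 0 := hP.actH_eq n i hb
        have e2 : actH C X H (P' n) b = if i = n then b else 0 := hP'.actH_eq n i hb
        rw [e1]
        split_ifs with h3
        · rw [e2, if_pos h3]
        · rw [map_zero]
      unfold cj
      rw [map_sum, LinearMap.sum_apply, Finset.sum_congr rfl fun n _ => h2 n,
        ← LinearMap.sum_apply, ← map_sum, hP.sum_eq, map_one]
    exact LinearMap.congr_fun h1 a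
  raises a b hab := lt_zero hL hP hM hP' hM' hab
  graded n := by
    have h1 := cj_graded hL hP hM hP' hM' (le_refl n)
    rw [if_pos rfl, mul_assoc] at h1
    exact h1

lemma tp_transition {P P' : ℕ → Cor C X} (hs : IsSelfDual C (X := X) P)
    (hs' : IsSelfDual C (X := X) P') : tpR C X (cj X P P') = cj X P' P := by
  unfold cj
  rw [map_sum, ← Finset.sum_range_reflect (fun n => P n * P' n)]
  apply Finset.sum_congr rfl
  intro n hn
  rw [Finset.mem_range] at hn
  rw [tpR_mul]
  have h1 : tpR C X (P n) = P (2 * X.dim - n) := hs n (by omega)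
  have h2 : tpR C X (P' n) = P' (2 * X.dim - n) := hs' n (by omega)
  rw [h1, h2, show 2 * X.dim + 1 - 1 - n = 2 * X.dim - n by omega]

end Pool.Agent.H92EQ
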