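import Pool.Agent.H92EQ.Main
import Pool.Agent.H92EQ.Nil

/-!
# Statements in terms of cycles
-/

open CategoryTheory AlgebraicGeometry

set_option autoImplicit false

universe u v w w'

namespace Pool.Agent.H92EQ

open Pool.Agent.H914 Pool.Agent.H914.VarClass Pool.Agent.H914.VarClass.Obj Pool.Agent.W492.BB
  Pool.Agent.W550.Corr Pool.Agent.TH133 Pool.Agent.Y107 Pool.Agent.H92SD

set_option linter.unusedSectionVars false

variable {k : Type u} [Field k] {𝒱 : VarClass k}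

variable {C : TheoryData.{u, v, 0} 𝒱 ℚ} [hC : IsChowProj C] {K : Type w} [Field K]
  {H : WeilTheoryData.{u, v, w} C K} [hH : IsWeilProj H] {X Y Z : 𝒱.Obj}

include hC hH

theorem descent' (g : Y ⟶ X) {D : C.A X} {η : C.A Y} {n : ℕ} (hdim : Y.dim = X.dim + n)
    (hD : C.Deg 1 D) (hr : RelPower C g 1 η n) (h : HasLefschetz H (pullAdd C g D η)) :
    HasSelfDualLefschetz H D := by
  obtain ⟨N, hN0, hN⟩ := hr.push
  obtain ⟨π, h1⟩ := h
  exact descent g hdim hD hr.deg_one hr.nilp hN0 (by rwa [one_mul] at hN) ⟨π, h1.ck, h1.lefschetz⟩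

theorem prod_iff' {D : C.A X} {E : C.A Z} (hD : C.Deg 1 D) (hE : C.Deg 1 E) :
    HasLefschetz H (boxPlus C D E) ↔ HasSelfDualLefschetz H D ∧ HasSelfDualLefschetz H E :=
  ⟨fun ⟨π, h⟩ => (prod_iff hD hE).1 ⟨π, h.ck, h.lefschetz⟩,
    fun h => let ⟨π, h1, h2⟩ := (prod_iff hD hE).2 h; ⟨π, h1, h2⟩⟩

theorem uncentred (g : Y ⟶ X) {D : C.A X} {A η : C.A Y} {m : ℕ}
    (hD : C.Deg 1 D) (hHL : HardLefschetzCor H X (C.mulCorr D)) (hr : RelPower C g A η m)
    (h : DivisorEquation C (pullAdd C g D η)) : HasSelfDualLefschetz H D := by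
  obtain ⟨N, hN0, hN⟩ := hr.push
  exact selfDual_of_multiples hD hHL (diagonalMultiples_descend g hD hr.deg hr.deg_one hr.nilp
    hN0 hN ((divisorEquation_iff (Submodule.add_mem _ (C.pull_mem g hD) hr.deg_one)).1 h))

theorem rigidity {L : C.A (X.prod X)} {π π' : ℕ → C.A (X.prod X)}
    (hL : C.Deg ((X.dim : ℤ) + 1) L) (h : LefschetzCK H L π) (h' : LefschetzCK H L π') :
    Rigidity H L π π' where
  rigid := rigid (C := C) (X := X) (L := L) (P := π) (P' := π') hL h.ck h.lefschetz h'.ck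
    h'.lefschetz
  isometry hs hs' := tp_transition (C := C) (H := H) (X := X) (P := π) (P' := π') hs hs'
  unique hS := unique_of_lowers (C := C) (X := X) (L := L) (P := π) (P' := π') hL h.ck h.lefschetz
    h'.ck h'.lefschetz hS

theorem nilpotence_brk {L : C.A (X.prod X)} {π : ℕ → C.A (X.prod X)}
    (hL : C.Deg ((X.dim : ℤ) + 1) L) (h1 : IsCK H X π) (h2 : MotivicLefschetz C L π)
    {y : C.A (X.prod X)} (hy : C.Deg ((X.dim : ℤ) - 1) y) (h0 : brk C L (brk C L y) = 0) :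
    H.cl (brk C L y) = 0 ∧ corPow C (brk C L y) (2 * X.dim + 1) = 0 := by
  let L' : Cor C X := L
  let y' : Cor C X := y
  let z : Cor C X := L' * y' - y' * L'
  let P : ℕ → Cor C X := π
  have hL' : L' ∈ crg C X 1 := hL
  have h0' : L' * z - z * L' = 0 := h0
  have hcomm : L' * z = z * L' := sub_eq_zero.1 h0'
  have hym : y' ∈ crg C X (-1) := hy
  have hzm : z ∈ crg C X 0 := by
    refine Submodule.sub_mem _ ?_ ?_
    · have := crg_mul hL' hym
      rwa [show (1 : ℤ) + -1 = 0 by norm_num] at this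
    · have := crg_mul hym hL'
      rwa [show (-1 : ℤ) + 1 = 0 by norm_num] at this
  have h1' : IsCK H X P := h1
  have h2' : MotivicLefschetz C (X := X) L' P := h2
  have k1 := cl_eq_zero_of_commutator (H := H) hL' h1' h2' hcomm rfl hzm
  have k2 := pow_eq_zero_of_commutator (H := H) hL' h1' h2' hcomm rfl
  exact ⟨k1, (corPow_eq z _).trans k2⟩

theorem nilpotence {D : C.A X} (hD : C.Deg 1 D) (h : HasLefschetz H D) {y : C.A (X.prod X)}
    (hy : C.Deg ((X.dim : ℤ) - 1) y) (h0 : boxDiff C D ^ 2 * y = 0) :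
    H.cl (boxDiff C D * y) = 0 ∧ corPow C (boxDiff C D * y) (2 * X.dim + 1) = 0 := by
  obtain ⟨π, h1, h2⟩ := h
  unfold boxDiff at h0 ⊢
  have e1 : brk C (C.mulCorr D) (-y) = (C.ext D 1 - C.ext 1 D) * y := by
    rw [brk_mulCorr, mul_neg, ← neg_mul, neg_sub]
  have e2 : brk C (C.mulCorr D) (brk C (C.mulCorr D) (-y)) = 0 := by
    rw [e1, brk_mulCorr, ← mul_assoc, ← neg_sub (C.ext D 1) (C.ext 1 D), neg_mul, ← pow_two,
      neg_mul, h0, neg_zero]
  have h3 := nilpotence_brk (H := H) (mulCorr_mem hD) h1 h2 (Submodule.neg_mem _ hy) e2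
  rwa [e1] at h3

end Pool.Agent.H92EQ
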